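import Mathlib

set_option autoImplicit false
open scoped Classical

namespace Pool.Agent.Qm

variable {G : Type} [Group G]

/-- The multiset of the letters `x, x⁻¹`, for `x` in the list. -/
def pairs : List G → Multiset G
  | [] => 0
  | (x :: X) => x ::ₘ x⁻¹ ::ₘ pairs X

lemma pairs_append (X Y : List G) : pairs (X ++ Y) = pairs X + pairs Y := by
  induction X with
  | nil => simp [pairs]
  | cons x X ih => simp [pairs, ih, Multiset.cons_add]

lemma pairs_eq (X : List G) :
    pairs X = (X : Multiset G) + (X : Multiset G).map (fun x => x⁻¹) := by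
  induction X with
  | nil => simp [pairs]
  | cons x X ih =>
    rw [pairs, ih, ← Multiset.cons_coe, Multiset.map_cons]
    simp only [← Multiset.singleton_add]
    abel

lemma pairs_map_conj (a : G) (X : List G) :
    (pairs X).map (fun g => a * g * a⁻¹) = pairs (X.map (fun g => a * g * a⁻¹)) := by
  induction X with
  | nil => simp [pairs]
  | cons x X ih =>
    simp only [pairs, Multiset.map_cons, ih, List.map_cons]
    congr 2
    group

lemma card_pairs (X : List G) : Multiset.card (pairs X) = 2 * X.length := by
  induction X with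
  | nil => simp [pairs]
  | cons x X ih => simp only [pairs, Multiset.card_cons, ih, List.length_cons]; ring

/-- Either some pair is split between `A` and `B`, or the pairing restricts to `A` and to `B`. -/
lemma refine_pairs (X : List G) : ∀ (A B U : Multiset G), A + B = U + pairs X →
    (∃ (y : G) (A' B' : Multiset G) (X' : List G), A = y ::ₘ A' ∧ B = y⁻¹ ::ₘ B' ∧
      A' + B' = U + pairs X' ∧ X.length = X'.length + 1) ∨
    (∃ (U1 U2 : Multiset G) (X1 X2 : List G), A = U1 + pairs X1 ∧ B = U2 + pairs X2 ∧
      U = U1 + U2 ∧ X.length = X1.length + X2.length) := by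
  induction X with
  | nil =>
    intro A B U h
    right
    exact ⟨A, B, [], [], by simp [pairs], by simp [pairs], by simpa [pairs] using h.symm, by simp⟩
  | cons x X ih =>
    intro A B U h
    have hx : x ∈ A + B := by rw [h]; simp [pairs]
    rcases Multiset.mem_add.mp hx with hxA | hxB
    · obtain ⟨A1, rfl⟩ := Multiset.exists_cons_of_mem hxA
      have h1 : A1 + B = U + (x⁻¹ ::ₘ pairs X) := by
        have : x ::ₘ (A1 + B) = x ::ₘ (U + (x⁻¹ ::ₘ pairs X)) := by
          rw [← Multiset.cons_add, h, pairs, Multiset.add_cons]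
        exact (Multiset.cons_inj_right x).mp this
      have hx1 : x⁻¹ ∈ A1 + B := by rw [h1]; simp
      rcases Multiset.mem_add.mp hx1 with hA | hB
      · obtain ⟨A2, rfl⟩ := Multiset.exists_cons_of_mem hA
        have h2 : A2 + B = U + pairs X := by
          have : x⁻¹ ::ₘ (A2 + B) = x⁻¹ ::ₘ (U + pairs X) := by
            rw [← Multiset.cons_add, h1, Multiset.add_cons]
          exact (Multiset.cons_inj_right _).mp this
        rcases ih A2 B U h2 with ⟨y, A', B', X', rfl, rfl, h3, h4⟩ | ⟨U1, U2, X1, X2, rfl, rfl, rfl, h4⟩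
        · left
          refine ⟨y, x ::ₘ x⁻¹ ::ₘ A', B', x :: X', ?_, rfl, ?_, by simp [h4]⟩
          · simp only [← Multiset.singleton_add]; abel
          · rw [Multiset.cons_add, Multiset.cons_add, h3, pairs]
            simp only [← Multiset.singleton_add]; abel
        · right
          refine ⟨U1, U2, x :: X1, X2, ?_, rfl, rfl, by simp [h4]; ring⟩
          rw [pairs]
          simp only [← Multiset.singleton_add]; abel
      · obtain ⟨B2, rfl⟩ := Multiset.exists_cons_of_mem hB
        left
        refine ⟨x, A1, B2, X, rfl, rfl, ?_, by simp⟩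
        have : x⁻¹ ::ₘ (A1 + B2) = x⁻¹ ::ₘ (U + pairs X) := by
          rw [← Multiset.add_cons, h1, Multiset.add_cons]
        exact (Multiset.cons_inj_right _).mp this
    · obtain ⟨B1, rfl⟩ := Multiset.exists_cons_of_mem hxB
      have h1 : A + B1 = U + (x⁻¹ ::ₘ pairs X) := by
        have : x ::ₘ (A + B1) = x ::ₘ (U + (x⁻¹ ::ₘ pairs X)) := by
          rw [← Multiset.add_cons, h, pairs, Multiset.add_cons]
        exact (Multiset.cons_inj_right x).mp this
      have hx1 : x⁻¹ ∈ A + B1 := by rw [h1]; simp
      rcases Multiset.mem_add.mp hx1 with hA | hB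
      · obtain ⟨A2, rfl⟩ := Multiset.exists_cons_of_mem hA
        left
        refine ⟨x⁻¹, A2, B1, X, rfl, by simp, ?_, by simp⟩
        have : x⁻¹ ::ₘ (A2 + B1) = x⁻¹ ::ₘ (U + pairs X) := by
          rw [← Multiset.cons_add, h1, Multiset.add_cons]
        exact (Multiset.cons_inj_right _).mp this
      · obtain ⟨B2, rfl⟩ := Multiset.exists_cons_of_mem hB
        have h2 : A + B2 = U + pairs X := by
          have : x⁻¹ ::ₘ (A + B2) = x⁻¹ ::ₘ (U + pairs X) := by
            rw [← Multiset.add_cons, h1, Multiset.add_cons]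
          exact (Multiset.cons_inj_right _).mp this
        rcases ih A B2 U h2 with ⟨y, A', B', X', rfl, rfl, h3, h4⟩ | ⟨U1, U2, X1, X2, rfl, rfl, rfl, h4⟩
        · left
          refine ⟨y, A', x ::ₘ x⁻¹ ::ₘ B', x :: X', rfl, ?_, ?_, by simp [h4]⟩
          · simp only [← Multiset.singleton_add]; abel
          · rw [Multiset.add_cons, Multiset.add_cons, h3, pairs]
            simp only [← Multiset.singleton_add]; abel
        · right
          refine ⟨U1, U2, X1, x :: X2, rfl, ?_, rfl, by simp [h4]; ring⟩
          rw [pairs]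
          simp only [← Multiset.singleton_add]; abel

/-- Homogeneous quasimorphism facts. -/
structure QM (φ : G → ℝ) (D : ℝ) : Prop where
  nn : 0 ≤ D
  defect : ∀ g h : G, |φ (g * h) - φ g - φ h| ≤ D
  one : φ 1 = 0
  inv : ∀ g : G, φ g⁻¹ = -φ g
  conj : ∀ x g : G, φ (x * g * x⁻¹) = φ g

lemma QM.of {φ : G → ℝ} {D : ℝ} (h : ∀ g h : G, |φ (g * h) - φ g - φ h| ≤ D)
    (hom : ∀ (g : G) (n : ℕ), φ (g ^ n) = (n : ℝ) * φ g) : QM φ D := by
  have nn : 0 ≤ D := le_trans (abs_nonneg _) (h 1 1)
  have one : φ 1 = 0 := by simpa using hom 1 0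
  have key : ∀ a C : ℝ, (∀ n : ℕ, (n : ℝ) * |a| ≤ C) → a = 0 := by
    intro a C hC
    by_contra ha
    have hpos : 0 < |a| := abs_pos.mpr ha
    obtain ⟨n, hn⟩ := exists_nat_gt (C / |a|)
    have := hC n
    rw [div_lt_iff₀ hpos] at hn
    linarith
  have inv : ∀ g : G, φ g⁻¹ = -φ g := by
    intro g
    have : φ g⁻¹ + φ g = 0 := by
      apply key _ D
      intro n
      have h1 := h (g⁻¹ ^ n) (g ^ n)
      rw [hom, hom] at h1
      have h2 : g⁻¹ ^ n * g ^ n = 1 := by
        rw [inv_pow]; simp
      rw [h2, one] at h1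
      have h3 : (0 : ℝ) - n * φ g⁻¹ - n * φ g = -(n * (φ g⁻¹ + φ g)) := by ring
      rw [h3, abs_neg, abs_mul, Nat.abs_cast] at h1
      exact h1
    linarith
  refine ⟨nn, h, one, inv, ?_⟩
  intro x g
  have : φ (x * g * x⁻¹) - φ g = 0 := by
    apply key _ (2 * D)
    intro n
    have h1 := h (x * g ^ n) x⁻¹
    have h2 := h x (g ^ n)
    have h3 : x * g ^ n * x⁻¹ = (x * g * x⁻¹) ^ n := by simp
    rw [h3, hom, inv] at h1
    rw [hom] at h2
    have h4 : (n : ℝ) * |φ (x * g * x⁻¹) - φ g| = |(n : ℝ) * φ (x * g * x⁻¹) - n * φ g| := by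
      rw [← mul_sub, abs_mul, Nat.abs_cast]
    rw [h4]
    rw [abs_le] at *
    constructor <;> linarith [h1.1, h1.2, h2.1, h2.2]
  linarith

lemma QM.comm {φ : G → ℝ} {D : ℝ} (q : QM φ D) (x y : G) :
    |φ (x * y * x⁻¹ * y⁻¹)| ≤ D := by
  have h := q.defect (x * y * x⁻¹) y⁻¹
  rw [q.conj, q.inv] at h
  have : φ (x * y * x⁻¹ * y⁻¹) - φ y - -φ y = φ (x * y * x⁻¹ * y⁻¹) := by ring
  rwa [this] at h

lemma QM.prod {φ : G → ℝ} {D : ℝ} (q : QM φ D) (w : List G) (hw : w ≠ []) :
    |φ w.prod - (w.map φ).sum| ≤ D * ((w.length : ℝ) - 1) := by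
  induction w with
  | nil => exact absurd rfl hw
  | cons x w ih =>
    by_cases h : w = []
    · subst h; simp
    · have h1 := ih h
      have h2 := q.defect x w.prod
      simp only [List.prod_cons, List.map_cons, List.sum_cons, List.length_cons]
      push_cast
      rw [abs_le] at *
      constructor <;> nlinarith [h1.1, h1.2, h2.1, h2.2]

lemma rot {w : List G} {x : G} (hw : w.prod = 1) (hx : x ∈ w) :
    ∃ v : List G, x * v.prod = 1 ∧ (w : Multiset G) = x ::ₘ (v : Multiset G) := by
  obtain ⟨s, t, rfl⟩ := List.append_of_mem hx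
  refine ⟨t ++ s, ?_, ?_⟩
  · simp only [List.prod_append, List.prod_cons] at hw ⊢
    have : s.prod * (x * t.prod) = 1 := hw
    have h2 : x * t.prod = s.prod⁻¹ := eq_inv_of_mul_eq_one_right this
    rw [← mul_assoc, h2]; simp
  · rw [← Multiset.coe_add, ← Multiset.coe_add, ← Multiset.cons_coe]
    simp only [← Multiset.singleton_add]
    abel

lemma QM.polygon {φ : G → ℝ} {D : ℝ} (q : QM φ D) : ∀ (m : ℕ) (X : List G), X.length = m →
    ∀ (w : List G) (U : Multiset G), w.prod = 1 → w ≠ [] → (w : Multiset G) = U + pairs X →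
    |(U.map φ).sum| ≤ D * ((Multiset.card U : ℝ) + m - 1) := by
  intro m
  induction m using Nat.strong_induction_on with
  | _ m IH =>
  intro X hX w U hw hne hmul
  cases X with
  | nil =>
    simp only [List.length_nil] at hX
    subst hX
    simp only [pairs, add_zero] at hmul
    have h1 := q.prod w hne
    rw [hw, q.one] at h1
    have h2 : (U.map φ).sum = (w.map φ).sum := by rw [← hmul]; simp
    have h3 : (Multiset.card U : ℝ) = w.length := by rw [← hmul]; simp
    rw [h2, h3]
    have h4 : (0 : ℝ) - (w.map φ).sum = -(w.map φ).sum := by ring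
    rw [h4, abs_neg] at h1
    simpa using h1
  | cons x X =>
    simp only [List.length_cons] at hX
    have hx : x ∈ w := by
      have : x ∈ (w : Multiset G) := by rw [hmul]; simp [pairs]
      simpa using this
    obtain ⟨v, hv, hwv⟩ := rot hw hx
    have h1 : (v : Multiset G) = U + (x⁻¹ ::ₘ pairs X) := by
      have : x ::ₘ (v : Multiset G) = x ::ₘ (U + (x⁻¹ ::ₘ pairs X)) := by
        rw [← hwv, hmul, pairs, Multiset.add_cons]
      exact (Multiset.cons_inj_right x).mp this
    have hx1 : x⁻¹ ∈ v := by
      have : x⁻¹ ∈ (v : Multiset G) := by rw [h1]; simp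
      simpa using this
    obtain ⟨A, B, rfl⟩ := List.append_of_mem hx1
    have h2 : (A : Multiset G) + (B : Multiset G) = U + pairs X := by
      have : x⁻¹ ::ₘ ((A : Multiset G) + (B : Multiset G)) = x⁻¹ ::ₘ (U + pairs X) := by
        rw [← Multiset.add_cons, ← Multiset.add_cons, ← h1, Multiset.cons_coe, Multiset.coe_add]
      exact (Multiset.cons_inj_right _).mp this
    have hprod : x * (A.prod * (x⁻¹ * B.prod)) = 1 := by
      simpa [List.prod_append] using hv
    rcases refine_pairs X _ _ U h2 with ⟨y, A', B', X', hA, hB, h3, h4⟩ |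
      ⟨U1, U2, X1, X2, hA, hB, hU, h4⟩
    · -- crossing pair
      have hyA : y ∈ A := by
        have : y ∈ (A : Multiset G) := by rw [hA]; simp
        simpa using this
      have hyB : y⁻¹ ∈ B := by
        have : y⁻¹ ∈ (B : Multiset G) := by rw [hB]; simp
        simpa using this
      obtain ⟨P, Q, rfl⟩ := List.append_of_mem hyA
      obtain ⟨R, S, rfl⟩ := List.append_of_mem hyB
      have hA' : (P : Multiset G) + (Q : Multiset G) = A' := by
        have : y ::ₘ ((P : Multiset G) + (Q : Multiset G)) = y ::ₘ A' := by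
          rw [← Multiset.add_cons, Multiset.cons_coe, Multiset.coe_add, hA]
        exact (Multiset.cons_inj_right _).mp this
      have hB' : (R : Multiset G) + (S : Multiset G) = B' := by
        have : y⁻¹ ::ₘ ((R : Multiset G) + (S : Multiset G)) = y⁻¹ ::ₘ B' := by
          rw [← Multiset.add_cons, Multiset.cons_coe, Multiset.coe_add, hB]
        exact (Multiset.cons_inj_right _).mp this
      set x' : G := (R.prod * Q.prod)⁻¹ * x with hx'
      set y' : G := P.prod * y * Q.prod with hy'
      set c : G := x' * y' * x'⁻¹ * y'⁻¹ with hc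
      have hnew : (R ++ (Q ++ (c :: (P ++ S)))).prod = 1 := by
        simp only [List.prod_append, List.prod_cons]
        rw [← hprod]
        simp only [List.prod_append, List.prod_cons]
        rw [hc, hx', hy']
        group
      have hm : m = X'.length + 2 := by omega
      have h5 := IH X'.length (by omega) X' rfl (R ++ (Q ++ (c :: (P ++ S)))) (c ::ₘ U) hnew
        (by simp) (by
          rw [Multiset.cons_add, ← h3, ← hA', ← hB', ← Multiset.coe_add, ← Multiset.coe_add,
            ← Multiset.cons_coe, ← Multiset.coe_add]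
          simp only [← Multiset.singleton_add]
          abel)
      have h6 := q.comm x' y'
      rw [← hc] at h6
      simp only [Multiset.map_cons, Multiset.sum_cons, Multiset.card_cons] at h5
      push_cast at h5
      rw [hm]
      push_cast
      rw [abs_le] at *
      constructor <;> nlinarith [h5.1, h5.2, h6.1, h6.2]
    · -- no crossing pair
      have hm : m = X.length + 1 := by omega
      set A2 : List G := A.map (fun g => x * g * x⁻¹) with hA2
      have hprodA : A2.prod = x * A.prod * x⁻¹ := by
        have : A2.prod = (A.map (MulAut.conj x).toMonoidHom).prod := by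
          rw [hA2]; congr 1
        rw [this, List.prod_hom]
        simp [MulAut.conj_apply]
      by_cases he : A2 ++ B = []
      · have hB0 : B = [] := (List.append_eq_nil_iff.mp he).2
        have hA0 : A = [] := by
          have := (List.append_eq_nil_iff.mp he).1
          rw [hA2] at this
          exact List.map_eq_nil_iff.mp this
        have hU0 : U = 0 := by
          have h7 : U + pairs X = 0 := by rw [← h2, hA0, hB0]; simp
          exact (add_eq_zero.mp h7).1
        rw [hU0, hm]
        simp only [Multiset.map_zero, Multiset.sum_zero, abs_zero, Multiset.card_zero]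
        push_cast
        have := q.nn
        have h8 : (0 : ℝ) ≤ X.length := Nat.cast_nonneg _
        have h9 : (0 : ℝ) + (X.length + 1) - 1 = X.length := by ring
        rw [h9]
        positivity
      · have h5 := IH X.length (by omega) (X1.map (fun g => x * g * x⁻¹) ++ X2)
          (by simp [h4]) (A2 ++ B) (U1.map (fun g => x * g * x⁻¹) + U2)
          (by rw [List.prod_append, hprodA, ← hprod]; group) he (by
            rw [pairs_append, ← pairs_map_conj, ← Multiset.coe_add, hB, hA2, ← Multiset.map_coe, hA,
              Multiset.map_add]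
            abel)
        have h6 : ((U1.map (fun g => x * g * x⁻¹) + U2).map φ).sum = (U.map φ).sum := by
          rw [hU, Multiset.map_add, Multiset.map_add, Multiset.sum_add, Multiset.sum_add,
            Multiset.map_map]
          congr 2
          apply Multiset.map_congr rfl
          intro g _
          exact q.conj x g
        have h7 : Multiset.card (U1.map (fun g => x * g * x⁻¹) + U2) = Multiset.card U := by
          rw [hU]; simp
        rw [h6, h7] at h5
        rw [hm]
        push_cast
        have := q.nn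
        nlinarith [h5]

lemma QM.blocks {φ : G → ℝ} {D : ℝ} (q : QM φ D) : ∀ (k : ℕ) (Ws : List (List G)),
    Ws.length = k → (∀ w ∈ Ws, w.prod = 1 ∧ 2 ≤ w.length) →
    ∀ (U : Multiset G) (X : List G), (Ws.flatten : Multiset G) = U + pairs X →
    |(U.map φ).sum| ≤ D * ((Multiset.card U : ℝ) + X.length - k) := by
  intro k
  induction k with
  | zero =>
    intro Ws hk hW U X hmul
    have hWs : Ws = [] := List.length_eq_zero_iff.mp hk
    subst hWs
    simp only [List.flatten_nil, Multiset.coe_nil] at hmul
    have h7 := add_eq_zero.mp hmul.symm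
    have h8 : X.length = 0 := by
      have := card_pairs X
      rw [h7.2] at this
      simp at this
      simp [this]
    rw [h7.1, h8]
    simp
  | succ k ih =>
    intro Ws hk hW U X hmul
    cases Ws with
    | nil => simp at hk
    | cons w Ws =>
      simp only [List.length_cons, add_left_inj] at hk
      rw [List.flatten_cons, ← Multiset.coe_add] at hmul
      rcases refine_pairs X _ _ U hmul with ⟨y, A', B', X', hA, hB, h3, h4⟩ |
        ⟨U1, U2, X1, X2, hA, hB, hU, h4⟩
      · have hyA : y ∈ w := by
          have : y ∈ (w : Multiset G) := by rw [hA]; simp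
          simpa using this
        have hyB : y⁻¹ ∈ Ws.flatten := by
          have : y⁻¹ ∈ (Ws.flatten : Multiset G) := by rw [hB]; simp
          simpa using this
        obtain ⟨w1, hw1, hy1⟩ := List.mem_flatten.mp hyB
        obtain ⟨Pre, Post, rfl⟩ := List.append_of_mem hw1
        obtain ⟨v, hv, hwv⟩ := rot (hW w (by simp)).1 hyA
        obtain ⟨v1, hv1, hwv1⟩ := rot (hW w1 (by simp)).1 hy1
        have hlw : w.length = v.length + 1 := by
          have := congrArg Multiset.card hwv
          simpa using this
        have hlw1 : w1.length = v1.length + 1 := by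
          have := congrArg Multiset.card hwv1
          simpa using this
        have hl1 := (hW w (by simp)).2
        have hl2 := (hW w1 (by simp)).2
        have hlen : X.length = X'.length + 1 := h4
        have h5 := ih ((v ++ v1) :: (Pre ++ Post)) (by simp at hk ⊢; omega) (by
          intro u hu
          rcases List.mem_cons.mp hu with rfl | hu
          · refine ⟨?_, by simp; omega⟩
            rw [List.prod_append]
            have e1 : v.prod = y⁻¹ := eq_inv_of_mul_eq_one_right hv
            have e2 : v1.prod = y⁻¹⁻¹ := eq_inv_of_mul_eq_one_right hv1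
            rw [e1, e2]; simp
          · apply hW
            simp only [List.mem_append, List.mem_cons] at hu ⊢
            tauto) U X' (by
          rw [← h3]
          have eA : (v : Multiset G) = A' := by
            rw [hA] at hwv
            exact ((Multiset.cons_inj_right _).mp hwv).symm
          have eB : (v1 : Multiset G) + ((Pre ++ Post).flatten : Multiset G) = B' := by
            have : y⁻¹ ::ₘ ((v1 : Multiset G) + ((Pre ++ Post).flatten : Multiset G)) = y⁻¹ ::ₘ B' := by
              rw [← hB, ← Multiset.cons_add, ← hwv1]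
              simp only [List.flatten_append, List.flatten_cons, ← Multiset.coe_add]
              abel
            exact (Multiset.cons_inj_right _).mp this
          rw [List.flatten_cons, ← Multiset.coe_add, ← Multiset.coe_add, eA, add_assoc, eB])
        rw [hlen]
        push_cast at h5 ⊢
        have e : (Multiset.card U : ℝ) + (X'.length + 1) - (k + 1) =
          (Multiset.card U : ℝ) + X'.length - k := by ring
        rw [e]
        exact h5
      · have hwne : w ≠ [] := by
          have := (hW w (by simp)).2
          intro h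
          rw [h] at this
          simp at this
        have h5 := q.polygon X1.length X1 rfl w U1 (hW w (by simp)).1 hwne hA
        have h6 := ih Ws hk (fun u hu => hW u (by simp [hu])) U2 X2 hB
        rw [hU, h4]
        rw [Multiset.map_add, Multiset.sum_add, Multiset.card_add]
        push_cast
        rw [abs_le] at *
        constructor <;> nlinarith [h5.1, h5.2, h6.1, h6.2]

/-! ### Chains -/

/-- The 0/1 chain of a multiset. -/
noncomputable def ch {α : Type} (M : Multiset α) : α →₀ ℝ :=
  (M.map (fun g => Finsupp.single g (1 : ℝ))).sum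

lemma ch_add {α : Type} (A B : Multiset α) : ch (A + B) = ch A + ch B := by
  simp [ch]

lemma ch_apply {α : Type} [DecidableEq α] (M : Multiset α) (g : α) :
    ch M g = (M.count g : ℝ) := by
  induction M using Multiset.induction_on with
  | empty => simp [ch]
  | cons a M ih =>
    have : ch (a ::ₘ M) = Finsupp.single a 1 + ch M := by simp [ch]
    rw [this, Finsupp.add_apply, ih, Multiset.count_cons, Finsupp.single_apply]
    by_cases h : a = g
    · subst h; simp; ring
    · have h' : ¬ g = a := fun e => h e.symm
      simp [h, h']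

/-- The l1 norm. -/
noncomputable def n1 {α : Type} (z : α →₀ ℝ) : ℝ := z.sum fun _ a => |a|

lemma n1_eq {α : Type} (z : α →₀ ℝ) (S : Finset α) (h : z.support ⊆ S) :
    n1 z = ∑ a ∈ S, |z a| := by
  unfold n1
  exact Finsupp.sum_of_support_subset _ h _ (by simp)

lemma n1_ge {α : Type} (z : α →₀ ℝ) (S : Finset α) : ∑ a ∈ S, |z a| ≤ n1 z := by
  rw [n1_eq z (z.support ∪ S) Finset.subset_union_left]
  exact Finset.sum_le_sum_of_subset_of_nonneg Finset.subset_union_right
    (fun _ _ _ => abs_nonneg _)

lemma n1_nonneg {α : Type} (z : α →₀ ℝ) : 0 ≤ n1 z :=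
  Finset.sum_nonneg (fun _ _ => abs_nonneg _)

lemma n1_zero {α : Type} : n1 (0 : α →₀ ℝ) = 0 := by simp [n1]

lemma n1_add {α : Type} (x y : α →₀ ℝ) : n1 (x + y) ≤ n1 x + n1 y := by
  rw [n1_eq (x + y) (x.support ∪ y.support) Finsupp.support_add,
    n1_eq x (x.support ∪ y.support) Finset.subset_union_left,
    n1_eq y (x.support ∪ y.support) Finset.subset_union_right, ← Finset.sum_add_distrib]
  apply Finset.sum_le_sum
  intro a _
  exact abs_add_le _ _

lemma n1_smul {α : Type} (c : ℝ) (x : α →₀ ℝ) : n1 (c • x) = |c| * n1 x := by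
  rw [n1_eq (c • x) x.support Finsupp.support_smul, n1_eq x x.support (Finset.Subset.refl _),
    Finset.mul_sum]
  apply Finset.sum_congr rfl
  intro a _
  simp [abs_mul]

lemma n1_neg {α : Type} (x : α →₀ ℝ) : n1 (-x) = n1 x := by
  have := n1_smul (-1) x
  simpa using this

lemma n1_sub {α : Type} (x y : α →₀ ℝ) : n1 (x - y) ≤ n1 x + n1 y := by
  have := n1_add x (-y)
  rw [n1_neg] at this
  simpa [sub_eq_add_neg] using this

lemma n1_single {α : Type} (a : α) (c : ℝ) : n1 (Finsupp.single a c) = |c| := by
  simp [n1]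

/-- The boundary of a group 2-chain. -/
noncomputable def bd : ((G × G) →₀ ℝ) →ₗ[ℝ] (G →₀ ℝ) :=
  Finsupp.linearCombination ℝ (fun p : G × G =>
    Finsupp.single p.1 (1 : ℝ) + Finsupp.single p.2 1 - Finsupp.single (p.1 * p.2) 1)

lemma bd_single (p : G × G) : bd (Finsupp.single p 1) =
    Finsupp.single p.1 (1 : ℝ) + Finsupp.single p.2 1 - Finsupp.single (p.1 * p.2) 1 := by
  simp [bd]

/-- The linear extension of `φ`. -/
noncomputable def Phi (φ : G → ℝ) : (G →₀ ℝ) →ₗ[ℝ] ℝ := Finsupp.linearCombination ℝ φ

lemma Phi_single (φ : G → ℝ) (g : G) : Phi φ (Finsupp.single g 1) = φ g := by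
  simp [Phi]

lemma Phi_ch (φ : G → ℝ) (M : Multiset G) : Phi φ (ch M) = (M.map φ).sum := by
  induction M using Multiset.induction_on with
  | empty => simp [ch]
  | cons a M ih =>
    have : ch (a ::ₘ M) = Finsupp.single a 1 + ch M := by simp [ch]
    rw [this, map_add, Phi_single, ih]
    simp

lemma n1_ch_sub (P N : Multiset G) :
    ((Multiset.card (P - N) : ℝ)) + Multiset.card (N - P) ≤ n1 (ch P - ch N) := by
  set S : Finset G := P.toFinset ∪ N.toFinset with hS
  refine le_trans ?_ (n1_ge (ch P - ch N) S)
  have h1 : ∑ a ∈ S, (P - N).count a = Multiset.card (P - N) := by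
    apply Multiset.sum_count_eq_card
    intro a ha
    have : a ∈ P := Multiset.mem_of_le (Multiset.sub_le_self P N) ha
    simp [hS, this]
  have h2 : ∑ a ∈ S, (N - P).count a = Multiset.card (N - P) := by
    apply Multiset.sum_count_eq_card
    intro a ha
    have : a ∈ N := Multiset.mem_of_le (Multiset.sub_le_self N P) ha
    simp [hS, this]
  rw [← h1, ← h2]
  push_cast
  rw [← Finset.sum_add_distrib]
  apply Finset.sum_le_sum
  intro a _
  show _ ≤ |(ch P) a - (ch N) a|
  rw [ch_apply, ch_apply, Multiset.count_sub, Multiset.count_sub]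
  rcases le_total (P.count a) (N.count a) with h | h
  · rw [Nat.sub_eq_zero_of_le h, Nat.cast_sub h]
    have : ((P.count a : ℝ)) ≤ N.count a := by exact_mod_cast h
    rw [abs_of_nonpos (by linarith)]
    push_cast
    linarith
  · rw [Nat.sub_eq_zero_of_le h, Nat.cast_sub h]
    have : ((N.count a : ℝ)) ≤ P.count a := by exact_mod_cast h
    rw [abs_of_nonneg (by linarith)]
    push_cast
    linarith

/-- The letters `g, h` of the triangles in the list. -/
def sides2 : List (G × G) → Multiset G
  | [] => 0
  | (p :: Z) => p.1 ::ₘ p.2 ::ₘ sides2 Z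

/-- The letters `g * h` of the triangles in the list. -/
def prod1 : List (G × G) → Multiset G
  | [] => 0
  | (p :: Z) => (p.1 * p.2) ::ₘ prod1 Z

lemma bd_ch (Z : List (G × G)) : bd (ch (Z : Multiset (G × G))) = ch (sides2 Z) - ch (prod1 Z) := by
  induction Z with
  | nil => simp [ch, sides2, prod1]
  | cons p Z ih =>
    have e1 : ch ((p :: Z : List (G × G)) : Multiset (G × G)) =
        Finsupp.single p 1 + ch (Z : Multiset (G × G)) := by simp [ch]
    have e2 : ch (sides2 (p :: Z)) = Finsupp.single p.1 1 + (Finsupp.single p.2 1 + ch (sides2 Z)) := by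
      simp [ch, sides2]
    have e3 : ch (prod1 (p :: Z)) = Finsupp.single (p.1 * p.2) 1 + ch (prod1 Z) := by
      simp [ch, prod1]
    rw [e1, map_add, bd_single, ih, e2, e3]
    abel

/-- Positive triangles. -/
def blkP (Z : List (G × G)) : List (List G) := Z.map (fun p => [p.1, p.2, (p.1 * p.2)⁻¹])

/-- Negative triangles. -/
def blkN (Z : List (G × G)) : List (List G) := Z.map (fun p => [p.1 * p.2, p.2⁻¹, p.1⁻¹])

lemma flat_blkP (Z : List (G × G)) : ((blkP Z).flatten : Multiset G) =
    sides2 Z + (prod1 Z).map (fun x => x⁻¹) := by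
  induction Z with
  | nil => simp [blkP, sides2, prod1]
  | cons p Z ih =>
    have : (blkP (p :: Z)).flatten = p.1 :: p.2 :: (p.1 * p.2)⁻¹ :: (blkP Z).flatten := by
      simp [blkP]
    rw [this, ← Multiset.cons_coe, ← Multiset.cons_coe, ← Multiset.cons_coe, ih, sides2, prod1,
      Multiset.map_cons]
    simp only [← Multiset.singleton_add]
    abel

lemma flat_blkN (Z : List (G × G)) : ((blkN Z).flatten : Multiset G) =
    prod1 Z + (sides2 Z).map (fun x => x⁻¹) := by
  induction Z with
  | nil => simp [blkN, sides2, prod1]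
  | cons p Z ih =>
    have : (blkN (p :: Z)).flatten = (p.1 * p.2) :: p.2⁻¹ :: p.1⁻¹ :: (blkN Z).flatten := by
      simp [blkN]
    rw [this, ← Multiset.cons_coe, ← Multiset.cons_coe, ← Multiset.cons_coe, ih, sides2, prod1,
      Multiset.map_cons, Multiset.map_cons]
    simp only [← Multiset.singleton_add]
    abel

lemma card_sides2 (Z : List (G × G)) : Multiset.card (sides2 Z) = 2 * Z.length := by
  induction Z with
  | nil => simp [sides2]
  | cons p Z ih => simp [sides2, ih]; ring

lemma card_prod1 (Z : List (G × G)) : Multiset.card (prod1 Z) = Z.length := by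
  induction Z with
  | nil => simp [prod1]
  | cons p Z ih => simp [prod1, ih]

lemma QM.integral {φ : G → ℝ} {D : ℝ} (q : QM φ D) (Zp Zn : List (G × G)) :
    Phi φ (bd (ch (Zp : Multiset (G × G)) - ch (Zn : Multiset (G × G)))) ≤
      D / 2 * ((Zp.length : ℝ) + Zn.length +
        n1 (bd (ch (Zp : Multiset (G × G)) - ch (Zn : Multiset (G × G))))) := by
  set P : Multiset G := sides2 Zp + prod1 Zn with hP
  set N : Multiset G := prod1 Zp + sides2 Zn with hN
  have hbd : bd (ch (Zp : Multiset (G × G)) - ch (Zn : Multiset (G × G))) = ch P - ch N := by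
    rw [map_sub, bd_ch, bd_ch, hP, hN, ch_add, ch_add]
    abel
  rw [hbd]
  have hsplitP : P - N + P ∩ N = P := Multiset.sub_add_inter P N
  have hsplitN : N - P + P ∩ N = N := by rw [Multiset.inter_comm]; exact Multiset.sub_add_inter N P
  set K : List G := (P ∩ N).toList with hK
  have hKc : (K : Multiset G) = P ∩ N := by simp [hK]
  set U : Multiset G := (P - N) + (N - P).map (fun x => x⁻¹) with hU
  have hmul : ((blkP Zp ++ blkN Zn).flatten : Multiset G) = U + pairs K := by
    rw [List.flatten_append, ← Multiset.coe_add, flat_blkP, flat_blkN, pairs_eq, hKc, hU]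
    have e1 : sides2 Zp + (prod1 Zp).map (fun x => x⁻¹) + (prod1 Zn + (sides2 Zn).map (fun x => x⁻¹)) =
        P + N.map (fun x => x⁻¹) := by
      rw [hP, hN, Multiset.map_add]; abel
    have e2 : N.map (fun x => x⁻¹) = (N - P).map (fun x => x⁻¹) + (P ∩ N).map (fun x => x⁻¹) := by
      rw [← Multiset.map_add, hsplitN]
    have e3 : P = (P - N) + P ∩ N := hsplitP.symm
    rw [e1, e2]
    generalize (N - P).map (fun x => x⁻¹) = b at *
    generalize (P ∩ N).map (fun x => x⁻¹) = d at *
    calc P + (b + d) = ((P - N) + P ∩ N) + (b + d) := by rw [← e3]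
      _ = (P - N) + b + ((P ∩ N) + d) := add_add_add_comm _ _ _ _
  have hlen : (blkP Zp ++ blkN Zn).length = Zp.length + Zn.length := by simp [blkP, blkN]
  have h1 := q.blocks (Zp.length + Zn.length) (blkP Zp ++ blkN Zn) hlen (by
    intro w hw
    rcases List.mem_append.mp hw with hw | hw
    · obtain ⟨p, _, rfl⟩ := List.mem_map.mp hw
      simp
    · obtain ⟨p, _, rfl⟩ := List.mem_map.mp hw
      simp [mul_assoc]) U K hmul
  have hsum : (U.map φ).sum = Phi φ (ch P - ch N) := by
    rw [map_sub, Phi_ch, Phi_ch, hU, Multiset.map_add, Multiset.sum_add, Multiset.map_map]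
    have e2 : ((N - P).map (φ ∘ fun x => x⁻¹)).sum = -((N - P).map φ).sum := by
      rw [← Multiset.sum_map_neg']
      congr 1
      rw [Multiset.map_map]
      apply Multiset.map_congr rfl
      intro g _
      simp [q.inv]
    rw [e2]
    have e3 : (P.map φ).sum = ((P - N).map φ).sum + ((P ∩ N).map φ).sum := by
      rw [← Multiset.sum_add, ← Multiset.map_add, hsplitP]
    have e4 : (N.map φ).sum = ((N - P).map φ).sum + ((P ∩ N).map φ).sum := by
      rw [← Multiset.sum_add, ← Multiset.map_add, hsplitN]
    rw [e3, e4]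
    ring
  rw [hsum] at h1
  have hcU : (Multiset.card U : ℝ) = (Multiset.card (P - N) : ℝ) + Multiset.card (N - P) := by
    rw [hU]; simp
  have hcount : (Multiset.card U) + 2 * K.length = 3 * (Zp.length + Zn.length) := by
    have := congrArg Multiset.card hmul
    rw [Multiset.card_add, card_pairs] at this
    rw [← this]
    rw [List.flatten_append, ← Multiset.coe_add, flat_blkP, flat_blkN]
    simp only [Multiset.card_add, Multiset.card_map, card_prod1, card_sides2]
    ring
  have hcount' : (Multiset.card U : ℝ) + 2 * K.length = 3 * (Zp.length + Zn.length) := by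
    exact_mod_cast hcount
  have hn := n1_ch_sub P N
  rw [← hcU] at hn
  have h2 := (abs_le.mp h1).2
  refine le_trans h2 ?_
  push_cast
  have := q.nn
  have e5 : (K.length : ℝ) = (3 * (Zp.length + Zn.length) - Multiset.card U) / 2 := by linarith
  rw [e5]
  nlinarith [mul_le_mul_of_nonneg_left hn this]

lemma QM.Phi_bd {φ : G → ℝ} {D : ℝ} (q : QM φ D) (e : (G × G) →₀ ℝ) :
    |Phi φ (bd e)| ≤ D * n1 e := by
  induction e using Finsupp.induction with
  | zero => simp [n1_zero]
  | single_add p a f hp ha ih =>
    have h1 : n1 (Finsupp.single p a + f) = |a| + n1 f := by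
      unfold n1
      rw [Finsupp.sum_add_index_of_disjoint]
      · simp
      · rw [Finset.disjoint_left]
        intro x hx
        rw [Finsupp.support_single_ne_zero _ ha, Finset.mem_singleton] at hx
        rw [hx]; exact hp
    have h2 : Finsupp.single p a = a • Finsupp.single p (1 : ℝ) := by simp
    have h3 : Phi φ (bd (Finsupp.single p a)) = a * (φ p.1 + φ p.2 - φ (p.1 * p.2)) := by
      rw [h2, map_smul, map_smul, bd_single, map_sub, map_add, Phi_single, Phi_single, Phi_single]
      rfl
    rw [h1, map_add, map_add, h3]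
    have h4 : |φ p.1 + φ p.2 - φ (p.1 * p.2)| ≤ D := by
      have := q.defect p.1 p.2
      rw [← abs_neg] at this
      convert this using 2
      ring
    calc |a * (φ p.1 + φ p.2 - φ (p.1 * p.2)) + Phi φ (bd f)|
        ≤ |a * (φ p.1 + φ p.2 - φ (p.1 * p.2))| + |Phi φ (bd f)| := abs_add_le _ _
      _ ≤ |a| * D + D * n1 f := by
          rw [abs_mul]
          exact add_le_add (mul_le_mul_of_nonneg_left h4 (abs_nonneg _)) ih
      _ = D * (|a| + n1 f) := by ring

lemma n1_bd (e : (G × G) →₀ ℝ) : n1 (bd e) ≤ 3 * n1 e := by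
  induction e using Finsupp.induction with
  | zero => simp [n1_zero]
  | single_add p a f hp ha ih =>
    have h1 : n1 (Finsupp.single p a + f) = |a| + n1 f := by
      unfold n1
      rw [Finsupp.sum_add_index_of_disjoint]
      · simp
      · rw [Finset.disjoint_left]
        intro x hx
        rw [Finsupp.support_single_ne_zero _ ha, Finset.mem_singleton] at hx
        rw [hx]; exact hp
    have h2 : Finsupp.single p a = a • Finsupp.single p (1 : ℝ) := by simp
    rw [h1, map_add]
    refine le_trans (n1_add _ _) ?_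
    have h3 : n1 (bd (Finsupp.single p a)) ≤ 3 * |a| := by
      rw [h2, map_smul, n1_smul, bd_single]
      have h4 := n1_sub (Finsupp.single p.1 (1 : ℝ) + Finsupp.single p.2 1)
        (Finsupp.single (p.1 * p.2) 1)
      have h5 := n1_add (Finsupp.single p.1 (1 : ℝ)) (Finsupp.single p.2 1)
      rw [n1_single, n1_single] at h5
      rw [n1_single] at h4
      have h6 : |(1 : ℝ)| = 1 := abs_one
      rw [h6] at h4 h5
      have h7 := abs_nonneg a
      nlinarith
    linarith

/-- The main inequality for real chains. -/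
lemma QM.real {φ : G → ℝ} {D : ℝ} (q : QM φ D) (z : (G × G) →₀ ℝ) :
    Phi φ (bd z) ≤ D / 2 * (n1 z + n1 (bd z)) := by
  have hD := q.nn
  set S : Finset (G × G) := z.support with hS
  have key : ∀ N : ℕ, (N : ℝ) * (Phi φ (bd z) - D / 2 * (n1 z + n1 (bd z))) ≤ 3 * D * S.card := by
    intro N
    set y : (G × G) →₀ ℤ := z.mapRange (fun a => ⌊(N : ℝ) * a⌋) (by simp) with hy
    have hya : ∀ p, y p = ⌊(N : ℝ) * z p⌋ := fun p => by simp [hy]
    set Mp : Multiset (G × G) := Finsupp.toMultiset (y.mapRange Int.toNat rfl) with hMp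
    set Mn : Multiset (G × G) :=
      Finsupp.toMultiset (y.mapRange (fun a => (-a).toNat) rfl) with hMn
    have hint := q.integral Mp.toList Mn.toList
    rw [Multiset.coe_toList, Multiset.coe_toList, Multiset.length_toList,
      Multiset.length_toList] at hint
    set w : (G × G) →₀ ℝ := ch Mp - ch Mn with hw
    have hwa : ∀ p, w p = (y p : ℝ) := by
      intro p
      have e1 : w p = (Mp.count p : ℝ) - Mn.count p := by
        rw [← ch_apply, ← ch_apply]; rfl
      rw [e1, hMp, hMn, Finsupp.count_toMultiset, Finsupp.count_toMultiset,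
        Finsupp.mapRange_apply, Finsupp.mapRange_apply]
      have : ((y p).toNat : ℤ) - ((-(y p)).toNat : ℤ) = y p := Int.toNat_sub_toNat_neg (y p)
      exact_mod_cast this
    have hysupp : y.support ⊆ S := by
      intro p hp
      rw [Finsupp.mem_support_iff] at hp
      rw [hS, Finsupp.mem_support_iff]
      intro h0
      apply hp
      rw [hya, h0]; simp
    have hwsupp : w.support ⊆ S := by
      intro p hp
      apply hysupp
      rw [Finsupp.mem_support_iff] at hp ⊢
      intro h0
      apply hp
      rw [hwa, h0]; simp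
    have hcard : ((Multiset.card Mp : ℝ)) + Multiset.card Mn = n1 w := by
      rw [n1_eq w S hwsupp, hMp, hMn, Finsupp.card_toMultiset, Finsupp.card_toMultiset]
      rw [Finsupp.sum_of_support_subset _ (s := S) (le_trans Finsupp.support_mapRange hysupp) _
        (by simp), Finsupp.sum_of_support_subset _ (s := S)
        (le_trans Finsupp.support_mapRange hysupp) _ (by simp)]
      push_cast
      rw [← Finset.sum_add_distrib]
      apply Finset.sum_congr rfl
      intro p _
      simp only [id, Finsupp.mapRange_apply]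
      rw [hwa]
      have : ((y p).toNat : ℤ) + ((-(y p)).toNat : ℤ) = |y p| := by
        rcases le_total 0 (y p) with h | h
        · rw [abs_of_nonneg h]; omega
        · rw [abs_of_nonpos h]; omega
      rw [← Int.cast_abs, ← this]
      push_cast
      rfl
    set e : (G × G) →₀ ℝ := w - (N : ℝ) • z with he
    have hea : ∀ p, e p = (⌊(N : ℝ) * z p⌋ : ℝ) - (N : ℝ) * z p := by
      intro p
      have e1 : e p = w p - (N : ℝ) * z p := rfl
      rw [e1, hwa, hya]
    have hen : n1 e ≤ S.card := by
      have hes : e.support ⊆ S := by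
        intro p hp
        rw [Finsupp.mem_support_iff] at hp
        rw [hS, Finsupp.mem_support_iff]
        intro h0
        apply hp
        rw [hea, h0]; simp
      rw [n1_eq e S hes]
      have : (S.card : ℝ) = ∑ _p ∈ S, (1 : ℝ) := by simp
      rw [this]
      apply Finset.sum_le_sum
      intro p _
      rw [hea, abs_le]
      have h1 := Int.floor_le ((N : ℝ) * z p)
      have h2 := Int.lt_floor_add_one ((N : ℝ) * z p)
      constructor <;> linarith
    have hwe : w = (N : ℝ) • z + e := by rw [he]; abel
    rw [hcard] at hint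
    have hN : (0 : ℝ) ≤ N := Nat.cast_nonneg _
    have h1 : n1 w ≤ N * n1 z + n1 e := by
      rw [hwe]
      refine le_trans (n1_add _ _) ?_
      rw [n1_smul, abs_of_nonneg hN]
    have h2 : n1 (bd w) ≤ N * n1 (bd z) + 3 * n1 e := by
      rw [hwe, map_add, map_smul]
      refine le_trans (n1_add _ _) ?_
      rw [n1_smul, abs_of_nonneg hN]
      linarith [n1_bd e]
    have h3 : Phi φ (bd w) = N * Phi φ (bd z) + Phi φ (bd e) := by
      rw [hwe, map_add, map_smul, map_add, map_smul]; rfl
    have h4 := (abs_le.mp (q.Phi_bd e)).1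
    rw [h3] at hint
    have h5 : D / 2 * (n1 w + n1 (bd w)) ≤
        D / 2 * ((N * n1 z + n1 e) + (N * n1 (bd z) + 3 * n1 e)) :=
      mul_le_mul_of_nonneg_left (add_le_add h1 h2) (by linarith)
    have h6 : D * n1 e ≤ D * S.card := mul_le_mul_of_nonneg_left hen hD
    nlinarith
  by_contra hcon
  push Not at hcon
  have hpos : 0 < Phi φ (bd z) - D / 2 * (n1 z + n1 (bd z)) := by linarith
  obtain ⟨n, hn⟩ := exists_nat_gt (3 * D * S.card / (Phi φ (bd z) - D / 2 * (n1 z + n1 (bd z))))
  rw [div_lt_iff₀ hpos] at hn
  linarith [key n]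

/-- Every homogeneous quasimorphism with defect at most `D` is within bounded distance of a
function of defect at most `D / 2`. -/
theorem main (φ : G → ℝ) (D : ℝ) (h : ∀ g h : G, |φ (g * h) - φ g - φ h| ≤ D)
    (hom : ∀ (g : G) (n : ℕ), φ (g ^ n) = (n : ℝ) * φ g) :
    ∃ ψ : G → ℝ, (∃ C : ℝ, ∀ g : G, |ψ g - φ g| ≤ C) ∧
      ∀ g h : G, |ψ (g * h) - ψ g - ψ h| ≤ D / 2 := by
  have q : QM φ D := QM.of h hom
  have hD := q.nn
  set Gr : Submodule ℝ (((G × G) →₀ ℝ) × (G →₀ ℝ)) := LinearMap.graph (bd (G := G)) with hGr
  set L : (((G × G) →₀ ℝ) × (G →₀ ℝ)) →ₗ[ℝ] ℝ := (Phi φ).comp (LinearMap.snd ℝ _ _) with hL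
  obtain ⟨F, hF1, hF2⟩ := exists_extension_of_le_sublinear
    (⟨Gr, L.comp Gr.subtype⟩ : (((G × G) →₀ ℝ) × (G →₀ ℝ)) →ₗ.[ℝ] ℝ)
    (fun v => D / 2 * (n1 v.1 + n1 v.2))
    (by
      intro c hc x
      simp only [Prod.smul_fst, Prod.smul_snd, n1_smul, abs_of_pos hc]
      ring)
    (by
      intro x y
      simp only [Prod.fst_add, Prod.snd_add]
      have h1 := n1_add x.1 y.1
      have h2 := n1_add x.2 y.2
      nlinarith)
    (by
      rintro ⟨⟨z, w⟩, hx⟩
      have hx' : w = bd z := by
        have := (LinearMap.mem_graph_iff (bd (G := G)) (x := (z, w))).mp hx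
        exact this
      subst hx'
      exact q.real z)
  have hFb : ∀ v : ((G × G) →₀ ℝ) × (G →₀ ℝ), |F v| ≤ D / 2 * (n1 v.1 + n1 v.2) := by
    intro v
    rw [abs_le]
    constructor
    · have := hF2 (-v)
      simp only [map_neg, Prod.fst_neg, Prod.snd_neg, n1_neg] at this
      linarith
    · exact hF2 v
  refine ⟨fun g => φ g - F (0, Finsupp.single g 1), ⟨D / 2, ?_⟩, ?_⟩
  · intro g
    have := hFb (0, Finsupp.single g 1)
    rw [n1_zero, n1_single, abs_one] at this
    have e : φ g - F (0, Finsupp.single g 1) - φ g = -F (0, Finsupp.single g 1) := by ring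
    simp only [e, abs_neg]
    linarith
  · intro a b
    set s : (G × G) →₀ ℝ := Finsupp.single (a, b) 1 with hs
    have hb : bd s = Finsupp.single a (1 : ℝ) + Finsupp.single b 1 - Finsupp.single (a * b) 1 :=
      bd_single (a, b)
    have h1 : F (s, bd s) = φ a + φ b - φ (a * b) := by
      have hmem : (s, bd s) ∈ Gr := by
        rw [hGr, LinearMap.mem_graph_iff]
      have := hF1 ⟨(s, bd s), hmem⟩
      rw [this]
      show Phi φ (bd s) = _
      rw [hb, map_sub, map_add, Phi_single, Phi_single, Phi_single]
    have h2 : F (s, bd s) = F (s, 0) + (F (0, Finsupp.single a 1) + F (0, Finsupp.single b 1) -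
        F (0, Finsupp.single (a * b) 1)) := by
      rw [← map_add, ← map_sub, ← map_add, hb]
      congr 1
      simp
    have h3 := hFb (s, 0)
    rw [n1_zero, hs, n1_single, abs_one] at h3
    rw [← hs] at h3
    have e : φ (a * b) - F (0, Finsupp.single (a * b) 1) - (φ a - F (0, Finsupp.single a 1)) -
        (φ b - F (0, Finsupp.single b 1)) = -F (s, 0) := by
      linarith
    simp only [e, abs_neg]
    linarith

end Pool.Agent.Qm
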